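import Pool.Agent.W236.SC.Defs2

/-!
# SC-KEX: existence and uniqueness of facets of elements
-/

set_option autoImplicit false

namespace Pool.Agent.W253.SC

open Pool.Agent.Helper741 Pool.Agent.W236.SC

variable {B : Type*} [Fintype B] [DecidableEq B] {M : CoxeterMatrix B}
variable {W : Type*} [Group W] (cs : CoxeterSystem M W)

/-- existence -/
theorem kex (_hB : BaseF cs) (hK : S_K0 cs) (hC : S_CROSS cs) (hW : S_WEAK cs) : S_KEX cs := by
  intro n q ω v hex
  induction hl : cs.length v using Nat.strong_induction_on generalizing v with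
  | _ l ih =>
  intro hv
  by_cases h1 : v = 1
  · subst h1
    obtain ⟨U, hU, -⟩ := hK n q ω hex
    exact ⟨U, hU⟩
  obtain ⟨s, hs⟩ := cs.exists_rightDescent_of_ne_one h1
  have hs' : cs.length (v * cs.simple s) + 1 = cs.length v := cs.isRightDescent_iff.mp hs
  obtain ⟨v', hv'⟩ : ∃ v', v' = v * cs.simple s := ⟨_, rfl⟩
  have hvv : v = v' * cs.simple s := by
    rw [hv', cs.simple_mul_simple_cancel_right]
  rw [← hv'] at hs'
  have hlt : cs.length v' < cs.length (v' * cs.simple s) := by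
    rw [← hvv]
    omega
  obtain ⟨w1, w2, w3, w4, w5, w6, w7⟩ := hW
  have hle : WLe cs v' v := by
    unfold WLe
    have : v'⁻¹ * v = cs.simple s := by
      rw [hvv]
      group
    rw [this, cs.length_simple]
    exact hs'
  have hle2 : WLe cs v' ω := w3 _ _ _ hle hv
  have hb : geo cs ω⁻¹ (geo cs v' (ee s)) ≤ 0 := (w7 v' ω s hlt hle2).1 (by rw [← hvv]; exact hv)
  obtain ⟨U, hU⟩ := ih (cs.length v') (by omega) v' rfl hle2
  obtain ⟨c1, c2, -, -⟩ := hC n q ω v' s U hlt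
  rw [hvv]
  classical
  by_cases h2 : ∃ k, k < n ∧ k ∉ U ∧ rt cs q U k = geo cs v' (ee s)
  · have h3 := Nat.find_spec h2
    obtain ⟨g', -, -, -, -, h4⟩ := c2 hU (Nat.find h2) h3.1 h3.2.1 h3.2.2 (by
      intro k hk hkU hk2
      exact Nat.find_min h2 hk ⟨hk.trans h3.1, hkU, hk2⟩) hb
    exact ⟨_, h4⟩
  · push Not at h2
    exact ⟨U, c1 hU h2⟩

/-- going down through the wall -/
theorem down (hC : S_CROSS cs) {n : ℕ} {q : ℕ → B} {ω v : W} {s : B} {U : Finset ℕ}
    (hlt : cs.length v < cs.length (v * cs.simple s)) (hU : IsK cs n q ω (v * cs.simple s) U) :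
    IsK cs n q ω v U ∨ ∃ g g', g < g' ∧ g' < n ∧ g ∈ U ∧ g' ∉ U ∧
      rt cs q U g = geo cs v (ee s) ∧ rt cs q U g' = - geo cs v (ee s) ∧
      IsK cs n q ω v (insert g' (U.erase g)) := by
  classical
  obtain ⟨-, -, c3, c4⟩ := hC n q ω v s U hlt
  by_cases h2 : ∃ k, k < n ∧ k ∉ U ∧ rt cs q U k = - geo cs v (ee s)
  · right
    set S := (Finset.range n).filter fun k => k ∉ U ∧ rt cs q U k = - geo cs v (ee s) with hS
    have hmem : ∀ k, k ∈ S ↔ k < n ∧ k ∉ U ∧ rt cs q U k = - geo cs v (ee s) := by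
      intro k
      rw [hS, Finset.mem_filter, Finset.mem_range]
    have hne : S.Nonempty := by
      obtain ⟨k, h1, h3, h4⟩ := h2
      exact ⟨k, (hmem k).2 ⟨h1, h3, h4⟩⟩
    have hm := (hmem _).1 (S.max'_mem hne)
    obtain ⟨g, h5, h6, h7, h8⟩ := c4 hU _ hm.1 hm.2.1 hm.2.2 (by
      intro k hk hkn hkU hk2
      have hkS : k ∈ S := (hmem k).2 ⟨hkn, hkU, hk2⟩
      exact absurd (S.le_max' k hkS) (not_le.2 hk))
    exact ⟨g, _, h5, hm.1, h6, hm.2.1, h7, hm.2.2, h8⟩
  · push Not at h2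
    exact Or.inl (c3 hU h2)

/-- no skipped position has the root `v e_s` -/
theorem no_pos {n : ℕ} {q : ℕ → B} {ω v : W} {s : B} {U : Finset ℕ}
    (hU : IsK cs n q ω (v * cs.simple s) U) {k : ℕ} (hk : k < n) (hkU : k ∉ U) :
    rt cs q U k ≠ geo cs v (ee s) := by
  intro h
  have h1 := hU.pos k hk hkU
  rw [h, mul_inv_rev, map_mul, Module.End.mul_apply, geo_inv_apply, cs.inv_simple, geo_simple,
    sg_ee_self] at h1
  have h2 : (0 : B → ℝ) = ee s := le_antisymm (ee_nonneg s) (neg_nonneg.1 h1)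
  exact ee_ne_zero s h2.symm

/-- uniqueness -/
theorem kun (hB : BaseF cs) (hR : S_ROOTS cs) (hK : S_K0 cs) (hC : S_CROSS cs) (_hF : S_FLIP cs)
    (hFR : S_FLIPR cs) : S_KUN cs := by
  intro n q ω v
  induction hl : cs.length v using Nat.strong_induction_on generalizing v with
  | _ l ih =>
  intro U1 U2 hU1 hU2
  by_cases h1 : v = 1
  · subst h1
    exact (hK n q ω ⟨U1, hU1.fac⟩).unique hU1 hU2
  obtain ⟨s, hs⟩ := cs.exists_rightDescent_of_ne_one h1
  have hs' : cs.length (v * cs.simple s) + 1 = cs.length v := cs.isRightDescent_iff.mp hs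
  obtain ⟨v', hv'⟩ : ∃ v', v' = v * cs.simple s := ⟨_, rfl⟩
  have hvv : v = v' * cs.simple s := by
    rw [hv', cs.simple_mul_simple_cancel_right]
  rw [← hv'] at hs'
  have hlt : cs.length v' < cs.length (v' * cs.simple s) := by
    rw [← hvv]
    omega
  have ih' := ih (cs.length v') (by omega) v' rfl
  rw [hvv] at hU1 hU2
  -- the second case
  have aux : ∀ U : Finset ℕ, IsK cs n q ω (v' * cs.simple s) U → ∀ g g', g < g' → g' < n →
      g ∈ U → g' ∉ U → rt cs q U g = geo cs v' (ee s) → rt cs q U g' = - geo cs v' (ee s) →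
      (∀ k, k < g → k ∉ insert g' (U.erase g) →
        rt cs q (insert g' (U.erase g)) k ≠ geo cs v' (ee s)) ∧
      g ∉ insert g' (U.erase g) ∧ rt cs q (insert g' (U.erase g)) g = geo cs v' (ee s) ∧
      rt cs q (insert g' (U.erase g)) g' = geo cs v' (ee s) ∧
      insert g ((insert g' (U.erase g)).erase g') = U := by
    intro U hU g g' hgg hgn hgU hgU' hg hg'
    obtain ⟨-, f2, -, f4⟩ := hFR n q ω U g g' hU.fac hgg hgn hgU hgU' (by rw [hg, hg'])
    refine ⟨?_, ?_, ?_, ?_, ?_⟩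
    · intro k hk hkU
      rw [f2 k hk.le]
      refine no_pos cs hU (hk.trans (hgg.trans hgn)) ?_
      intro hkU'
      exact hkU (Finset.mem_insert_of_mem (Finset.mem_erase.2 ⟨hk.ne, hkU'⟩))
    · simp [hgg.ne]
    · rw [f2 g le_rfl, hg]
    · rw [f4 g' hgg le_rfl, hg, hg']
      have e1 : - geo cs v' (ee s) = (-1 : ℝ) • geo cs v' (ee s) := by simp
      have e2 : frm M (geo cs v' (ee s)) (- geo cs v' (ee s)) = -2 := by
        rw [e1, hB.frm_smul, hB.rt_norm _ ⟨v', s, rfl⟩]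
        norm_num
      rw [e2]
      module
    · rw [Finset.erase_insert (by simp [hgU']), Finset.insert_erase hgU]
  rcases down cs hC hlt hU1 with d1 | ⟨g1, g1', a1, a2, a3, a4, a5, a6, a7⟩ <;>
    rcases down cs hC hlt hU2 with d2 | ⟨g2, g2', b1, b2, b3, b4, b5, b6, b7⟩
  · exact ih' U1 U2 d1 d2
  · exfalso
    have e := ih' _ _ d1 b7
    obtain ⟨x1, x2, x3, x4, x5⟩ := aux U2 hU2 g2 g2' b1 b2 b3 b4 b5 b6
    rw [← e] at x2 x3
    exact no_pos cs hU1 (b1.trans b2) x2 x3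
  · exfalso
    have e := ih' _ _ d2 a7
    obtain ⟨x1, x2, x3, x4, x5⟩ := aux U1 hU1 g1 g1' a1 a2 a3 a4 a5 a6
    rw [← e] at x2 x3
    exact no_pos cs hU2 (a1.trans a2) x2 x3
  · have e := ih' _ _ a7 b7
    obtain ⟨x1, x2, x3, x4, x5⟩ := aux U1 hU1 g1 g1' a1 a2 a3 a4 a5 a6
    obtain ⟨y1, y2, y3, y4, y5⟩ := aux U2 hU2 g2 g2' b1 b2 b3 b4 b5 b6
    have hV := hR n q ω _ b7.fac
    have m1 : g1' ∈ insert g1' (U1.erase g1) := Finset.mem_insert_self _ _
    have m2 : g2' ∈ insert g2' (U2.erase g2) := Finset.mem_insert_self _ _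
    rw [e] at x1 x2 x3 x4 x5 m1
    have hg : g1 = g2 := by
      rcases lt_trichotomy g1 g2 with h | h | h
      · exact absurd x3 (y1 g1 h x2)
      · exact h
      · exact absurd y3 (x1 g2 h y2)
    have hg' : g1' = g2' := hV.2.2.1 g1' m1 g2' m2 (x4.trans y4.symm)
    rw [hg, hg'] at x5
    exact x5.symm.trans y5

end Pool.Agent.W253.SC
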